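import Pool.Agent.R592.Gp.Om

/-! Project OM, piece OM-1: independence of coordinates, bound of a slalom. -/

set_option autoImplicit false

namespace Pool.Agent.Helper348.OM

open Set Cardinal MeasureTheory Filter Pool.Agent.R592.Om

lemma nu_map (i : ℕ × ℕ) (e : Equiv.Perm (X i)) : (nu i).map e = nu i := by
  have hsing : ∀ a : X i, nu i {a} = (Fintype.card (X i) : ENNReal)⁻¹ := by
    intro a
    unfold nu
    rw [PMF.toMeasure_apply_singleton _ _ (measurableSet_singleton a),
      PMF.uniformOfFintype_apply]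
  apply Measure.ext_of_singleton
  intro a
  rw [Measure.map_apply (measurable_of_countable _) (measurableSet_singleton a)]
  have : (e : X i → X i) ⁻¹' {a} = {e.symm a} := by
    ext x
    simp [Equiv.eq_symm_apply]
  rw [this, hsing, hsing]

/-- permute the coordinate `i` -/
def perm1 (i : ℕ × ℕ) (e : Equiv.Perm (X i)) (j : ℕ × ℕ) : Equiv.Perm (X j) :=
  if h : j = i then h ▸ e else 1

lemma perm1_self (i : ℕ × ℕ) (e : Equiv.Perm (X i)) : perm1 i e i = e := by
  simp [perm1]

lemma perm1_ne {i j : ℕ × ℕ} (h : j ≠ i) (e : Equiv.Perm (X i)) : perm1 i e j = 1 := by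
  simp [perm1, h]

lemma lam_map (i : ℕ × ℕ) (e : Equiv.Perm (X i)) :
    lam.map (fun (x : Om) j => perm1 i e j (x j)) = lam := by
  unfold lam
  rw [Measure.infinitePi_map_pi nu (f := fun j => (perm1 i e j : X j → X j))
    (fun j => measurable_of_countable _)]
  congr 1
  funext j
  exact nu_map j _

lemma meas_phi (i : ℕ × ℕ) (e : Equiv.Perm (X i)) :
    Measurable (fun (x : Om) (j : ℕ × ℕ) => perm1 i e j (x j)) :=
  measurable_pi_lambda _ fun j => (measurable_of_countable (perm1 i e j)).comp (measurable_pi_apply j)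

lemma meas_eq (i : ℕ × ℕ) (v : X i) : MeasurableSet {x : Om | x i = v} :=
  (measurable_pi_apply i) (measurableSet_singleton v)

lemma lam_swap (i : ℕ × ℕ) (u v : X i) {W : Set Om} (hW : MeasurableSet W)
    (hinv : ∀ x y : Om, (∀ j, j ≠ i → x j = y j) → (x ∈ W ↔ y ∈ W)) :
    lam (W ∩ {x | x i = v}) = lam (W ∩ {x | x i = u}) := by
  conv_lhs => rw [← lam_map i (Equiv.swap u v)]
  rw [Measure.map_apply (meas_phi i _) (hW.inter (meas_eq i v))]
  congr 1
  ext x
  simp only [mem_preimage, mem_inter_iff, mem_setOf_eq, perm1_self]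
  have h1 : (fun j => perm1 i (Equiv.swap u v) j (x j)) ∈ W ↔ x ∈ W := by
    apply hinv
    intro j hj
    rw [perm1_ne hj]
    rfl
  rw [h1]
  have h2 : Equiv.swap u v (x i) = v ↔ x i = u := by
    rw [Equiv.swap_apply_eq_iff, Equiv.swap_apply_right]
  rw [h2]

theorem lam_coord (i : ℕ × ℕ) (v : X i) {W : Set Om} (hW : MeasurableSet W)
    (hinv : ∀ x y : Om, (∀ j, j ≠ i → x j = y j) → (x ∈ W ↔ y ∈ W)) :
    lam.real (W ∩ {x | x i = v}) = lam.real W / 4 ^ i.1 := by
  have hsum : lam.real W = ∑ u : X i, lam.real (W ∩ {x | x i = u}) := by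
    have h1 : W = ⋃ u ∈ (Finset.univ : Finset (X i)), (W ∩ {x | x i = u}) := by
      ext x
      simp
    conv_lhs => rw [h1]
    rw [measureReal_biUnion_finset]
    · intro a _ b _ hab
      rw [Function.onFun, Set.disjoint_left]
      intro x hx hx'
      exact hab (hx.2.symm.trans hx'.2)
    · intro u _
      exact hW.inter (meas_eq i u)
  have hconst : ∀ u : X i, lam.real (W ∩ {x | x i = u}) = lam.real (W ∩ {x | x i = v}) := by
    intro u
    rw [measureReal_def, measureReal_def, lam_swap i u v hW hinv]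
  rw [Finset.sum_congr rfl (fun u _ => hconst u), Finset.sum_const, Finset.card_univ,
    Fintype.card_fin, nsmul_eq_mul] at hsum
  rw [hsum]
  push_cast
  field_simp

lemma bern (N : ℕ) (hN : 1 ≤ N) : (1 - 1 / (N : ℝ)) ^ N ≤ 1 / 2 := by
  have hN' : (1 : ℝ) ≤ N := by exact_mod_cast hN
  have h0 : 0 ≤ 1 - 1 / (N : ℝ) := by
    have : 1 / (N : ℝ) ≤ 1 := by
      rw [div_le_one (by linarith)]
      exact hN'
    linarith
  have hp : 0 < 1 / (N : ℝ) := by positivity
  have h1 : 1 + (N : ℝ) * (1 / N) ≤ (1 + 1 / (N : ℝ)) ^ N :=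
    one_add_mul_le_pow (by linarith) N
  have h2 : (N : ℝ) * (1 / N) = 1 := by field_simp
  have h3 : (1 - 1 / (N : ℝ)) ^ N * (1 + 1 / (N : ℝ)) ^ N ≤ 1 := by
    rw [← mul_pow]
    apply pow_le_one₀
    · positivity
    · nlinarith
  have h4 : 0 ≤ (1 - 1 / (N : ℝ)) ^ N := pow_nonneg h0 N
  nlinarith

theorem slalom_bound {K F : Set Om} (hK : MeasurableSet K) (hF : MeasurableSet F) (n : ℕ)
    (v : Fin (4 ^ n))
    (hinv : ∀ x y : Om, (∀ j : ℕ × ℕ, j.1 ≠ n → x j = y j) → (x ∈ F ↔ y ∈ F))
    (h0 : 0 < lam.real F) (h1 : 7 / 8 * lam.real F ≤ lam.real (K ∩ F)) (s : Finset ℕ)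
    (hs : ∀ k ∈ s, lam.real (K ∩ F ∩ {x | x (n, k) = v}) ≤ lam.real F / 4 ^ n / 3) :
    s.card ≤ 4 ^ n := by
  classical
  by_contra hcon
  push Not at hcon
  obtain ⟨t, hts, htc⟩ := Finset.exists_subset_card_eq hcon.le
  have hmeasG : ∀ t : Finset ℕ, MeasurableSet (F ∩ {x : Om | ∀ k ∈ t, x (n, k) ≠ v}) := by
    intro t
    apply hF.inter
    have : {x : Om | ∀ k ∈ t, x (n, k) ≠ v} = ⋂ k ∈ t, {x : Om | x (n, k) = v}ᶜ := by
      ext x
      simp
    rw [this]
    exact Finset.measurableSet_biInter t fun k _ => (meas_eq (n, k) v).compl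
  have hG : ∀ t : Finset ℕ, lam.real (F ∩ {x : Om | ∀ k ∈ t, x (n, k) ≠ v}) =
      lam.real F * (1 - 1 / (4 : ℝ) ^ n) ^ t.card := by
    intro t
    induction t using Finset.induction_on with
    | empty => simp
    | insert k t hk ih =>
      have e1 : F ∩ {x : Om | ∀ k' ∈ insert k t, x (n, k') ≠ v} =
          (F ∩ {x : Om | ∀ k' ∈ t, x (n, k') ≠ v}) \
            ((F ∩ {x : Om | ∀ k' ∈ t, x (n, k') ≠ v}) ∩ {x | x (n, k) = v}) := by
        ext x
        simp only [mem_inter_iff, mem_setOf_eq, Finset.mem_insert, forall_eq_or_imp, Set.mem_sdiff,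
          not_and]
        tauto
      rw [e1, measureReal_sdiff inter_subset_left ((hmeasG t).inter (meas_eq (n, k) v))]
      rw [lam_coord (n, k) v (hmeasG t), ih, Finset.card_insert_of_notMem hk, pow_succ]
      · ring
      · intro x y hxy
        have hxF : x ∈ F ↔ y ∈ F := by
          apply hinv
          intro j hj
          apply hxy
          rintro rfl
          exact hj rfl
        simp only [mem_inter_iff, hxF, mem_setOf_eq]
        apply and_congr_right
        intro _
        constructor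
        · intro h k' hk'
          rw [← hxy (n, k') (by
            intro he
            apply hk
            rw [Prod.mk.injEq] at he
            rwa [← he.2])]
          exact h k' hk'
        · intro h k' hk'
          rw [hxy (n, k') (by
            intro he
            apply hk
            rw [Prod.mk.injEq] at he
            rwa [← he.2])]
          exact h k' hk'
  have hcov : K ∩ F ⊆ (⋃ k ∈ t, (K ∩ F ∩ {x : Om | x (n, k) = v})) ∪
      (F ∩ {x : Om | ∀ k ∈ t, x (n, k) ≠ v}) := by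
    intro x hx
    by_cases h : ∀ k ∈ t, x (n, k) ≠ v
    · exact Or.inr ⟨hx.2, h⟩
    · push Not at h
      obtain ⟨k, hk, hkv⟩ := h
      left
      simp only [mem_iUnion]
      exact ⟨k, hk, hx, hkv⟩
  have hm1 : lam.real (K ∩ F) ≤ lam.real (⋃ k ∈ t, (K ∩ F ∩ {x : Om | x (n, k) = v})) +
      lam.real (F ∩ {x : Om | ∀ k ∈ t, x (n, k) ≠ v}) :=
    (measureReal_mono hcov).trans (measureReal_union_le _ _)
  have hm2 : lam.real (⋃ k ∈ t, (K ∩ F ∩ {x : Om | x (n, k) = v})) ≤
      ∑ k ∈ t, lam.real (K ∩ F ∩ {x : Om | x (n, k) = v}) :=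
    measureReal_biUnion_finset_le t _
  have hm3 : ∑ k ∈ t, lam.real (K ∩ F ∩ {x : Om | x (n, k) = v}) ≤ lam.real F / 3 := by
    calc ∑ k ∈ t, lam.real (K ∩ F ∩ {x : Om | x (n, k) = v}) ≤
        ∑ k ∈ t, lam.real F / 4 ^ n / 3 := Finset.sum_le_sum fun k hk => hs k (hts hk)
      _ = lam.real F / 3 := by
        rw [Finset.sum_const, htc, nsmul_eq_mul]
        push_cast
        field_simp
  have hm4 : lam.real (F ∩ {x : Om | ∀ k ∈ t, x (n, k) ≠ v}) ≤ lam.real F * (1 / 2) := by
    rw [hG t, htc]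
    apply mul_le_mul_of_nonneg_left _ h0.le
    have := bern (4 ^ n) (Nat.one_le_pow _ _ (by norm_num))
    push_cast at this
    exact this
  linarith

end Pool.Agent.Helper348.OM
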