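import Pool.Agent.R592.Gp.Om

/-! Project OM, piece OM-2: null sets with a non-null union give an unlocalized family. -/

set_option autoImplicit false

namespace Pool.Agent.Helper348.OM

open Set Cardinal MeasureTheory Filter Pool.Agent.R592.Om
open scoped ENNReal NNReal Topology

/-- the countable algebra of sets generated by a countable basis -/
def alg : Set (Set Om) := generateSetAlgebra (TopologicalSpace.countableBasis Om)

lemma alg_countable : alg.Countable :=
  countable_generateSetAlgebra (TopologicalSpace.countable_countableBasis Om)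

lemma alg_isSetAlgebra : IsSetAlgebra alg := isSetAlgebra_generateSetAlgebra

lemma alg_enum : ∃ C : ℕ → Set Om, alg = range C :=
  alg_countable.exists_eq_range ⟨univ, alg_isSetAlgebra.univ_mem⟩

lemma basis_mem {s : Set Om} (hs : s ∈ TopologicalSpace.countableBasis Om) : s ∈ alg :=
  self_subset_generateSetAlgebra hs

/-- an open set is a countable disjoint union of sets in the algebra -/
lemma open_disj {O : Set Om} (hO : IsOpen O) :
    ∃ D : ℕ → Set Om, (∀ j, D j ∈ alg) ∧ Pairwise (Function.onFun Disjoint D) ∧ ⋃ j, D j = O := by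
  classical
  obtain ⟨C, hC⟩ := alg_enum
  let B : ℕ → Set Om := fun j => if C j ⊆ O then C j else ∅
  have hB : ∀ j, B j ∈ alg := by
    intro j
    by_cases h : C j ⊆ O
    · simp only [B, if_pos h]
      rw [hC]
      exact mem_range_self j
    · simp only [B, if_neg h]
      exact alg_isSetAlgebra.empty_mem
  have hBO : ⋃ j, B j = O := by
    apply Subset.antisymm
    · apply iUnion_subset
      intro j
      by_cases h : C j ⊆ O
      · simp only [B, if_pos h]
        exact h
      · simp only [B, if_neg h]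
        exact empty_subset _
    · intro x hx
      obtain ⟨s, hs, hxs, hsO⟩ :=
        (TopologicalSpace.isBasis_countableBasis Om).exists_subset_of_mem_open hx hO
      have hsa := basis_mem hs
      rw [hC] at hsa
      obtain ⟨j, rfl⟩ := hsa
      rw [mem_iUnion]
      refine ⟨j, ?_⟩
      simp only [B, if_pos hsO]
      exact hxs
  refine ⟨disjointed B, ?_, disjoint_disjointed B, by rw [iUnion_disjointed, hBO]⟩
  intro j
  exact disjointedRec (p := fun s => s ∈ alg) (fun {t i} ht => alg_isSetAlgebra.sdiff_mem ht (hB i)) (hB j)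

lemma alg_meas {s : Set Om} (hs : s ∈ alg) : MeasurableSet s := by
  have h : ∀ s ∈ generateSetAlgebra (TopologicalSpace.countableBasis Om), MeasurableSet s := by
    intro s hs
    induction hs with
    | base t ht => exact ((TopologicalSpace.isBasis_countableBasis Om).isOpen ht).measurableSet
    | empty => exact MeasurableSet.empty
    | compl t _ ht => exact ht.compl
    | union t u _ _ ht hu => exact ht.union hu
  exact h s hs

/-- a sequence of sets of the algebra with summable measures covering `M` infinitely often -/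
lemma seq_cover {M : Set Om} (hM : lam M = 0) :
    ∃ D : ℕ → Set Om, (∀ i, D i ∈ alg) ∧ ∑' i, lam (D i) ≠ ∞ ∧
      ∀ x ∈ M, ∀ N, ∃ i, N ≤ i ∧ x ∈ D i := by
  have h1 : ∀ m : ℕ, ∃ O : Set Om, M ⊆ O ∧ IsOpen O ∧ lam O ≤ (2⁻¹ : ℝ≥0∞) ^ m := by
    intro m
    have hpos : (0 : ℝ≥0∞) < (2⁻¹ : ℝ≥0∞) ^ m := ENNReal.pow_pos (by simp) m
    obtain ⟨O, hMO, hO, hlt⟩ := M.exists_isOpen_lt_of_lt ((2⁻¹ : ℝ≥0∞) ^ m) (μ := lam)
      (by rw [hM]; exact hpos)
    exact ⟨O, hMO, hO, hlt.le⟩
  choose O hMO hO hlam using h1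
  choose D hD hdisj hU using fun m => open_disj (hO m)
  have hDm : ∀ m, ∑' j, lam (D m j) ≤ (2⁻¹ : ℝ≥0∞) ^ m := by
    intro m
    rw [← measure_iUnion (hdisj m) (fun j => alg_meas (hD m j)), hU m]
    exact hlam m
  refine ⟨fun i => D (Nat.unpair i).1 (Nat.unpair i).2, fun i => hD _ _, ?_, ?_⟩
  · have e : ∑' i : ℕ, lam (D (Nat.unpair i).1 (Nat.unpair i).2) =
        ∑' p : ℕ × ℕ, lam (D p.1 p.2) :=
      Equiv.tsum_eq Nat.pairEquiv.symm (fun p : ℕ × ℕ => lam (D p.1 p.2))
    rw [e, ENNReal.tsum_prod (f := fun a b => lam (D a b))]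
    refine ne_top_of_le_ne_top ?_ (ENNReal.tsum_le_tsum hDm)
    rw [ENNReal.tsum_geometric]
    simp
  · intro x hx N
    -- the pairs (m, j_m) for m ≤ N are different, one of them has code ≥ N
    have hj : ∀ m, ∃ j, x ∈ D m j := by
      intro m
      have : x ∈ ⋃ j, D m j := by
        rw [hU m]
        exact hMO m hx
      simpa using this
    obtain ⟨j, hj⟩ := hj N
    refine ⟨Nat.pair N j, Nat.left_le_pair N j, ?_⟩
    simpa using hj

/-- codes of small sets of the algebra covering `M` infinitely often -/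
lemma code_cover {C : ℕ → Set Om} (hC : alg = range C) {M : Set Om} (hM : lam M = 0)
    (ε : ℕ → ℝ≥0∞) (hε : ∀ n, 0 < ε n) :
    ∃ g : ℕ → ℕ, (∀ n, lam (C (g n)) ≤ ε n) ∧ ∀ x ∈ M, ∃ᶠ n in atTop, x ∈ C (g n) := by
  obtain ⟨D, hD, hsum, hcov⟩ := seq_cover hM
  have htail := ENNReal.tendsto_sum_nat_add (fun i => lam (D i)) hsum
  have hev : ∀ n, ∀ᶠ a in atTop, ∑' k, lam (D (k + a)) ≤ ε n := by
    intro n
    exact htail.eventually (ge_mem_nhds (hε n))
  obtain ⟨a, ha, haε⟩ := extraction_forall_of_eventually hev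
  have hU : ∀ n, (⋃ i ∈ Finset.Ico (a n) (a (n + 1)), D i) ∈ alg := fun n =>
    alg_isSetAlgebra.biUnion_mem _ fun i _ => hD i
  have hg : ∀ n, ∃ k, C k = ⋃ i ∈ Finset.Ico (a n) (a (n + 1)), D i := by
    intro n
    have := hU n
    rw [hC] at this
    exact this
  choose g hg using hg
  refine ⟨g, fun n => ?_, fun x hx => ?_⟩
  · rw [hg n]
    refine (measure_biUnion_finset_le _ _).trans (le_trans ?_ (haε n))
    rw [Finset.sum_Ico_eq_sum_range]
    calc ∑ k ∈ Finset.range (a (n + 1) - a n), lam (D (a n + k)) =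
        ∑ k ∈ Finset.range (a (n + 1) - a n), lam (D (k + a n)) := by
          simp only [add_comm]
      _ ≤ ∑' k, lam (D (k + a n)) := ENNReal.sum_le_tsum _
  · rw [frequently_atTop]
    intro N
    obtain ⟨i, hi, hxi⟩ := hcov x hx (a N)
    have hex : ∃ n, i < a (n + 1) := by
      refine ⟨i, ?_⟩
      have := ha.id_le (i + 1)
      simp only [id] at this
      omega
    classical
    have hmin : ∀ m, m < Nat.find hex → ¬ i < a (m + 1) := fun m hm => Nat.find_min hex hm
    have hspec := Nat.find_spec hex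
    set n := Nat.find hex with hn
    have hlow : a n ≤ i := by
      by_contra hlt
      push Not at hlt
      rcases Nat.eq_zero_or_pos n with h0 | h0
      · rw [h0] at hlt
        have := ha.monotone (Nat.zero_le N)
        omega
      · have := hmin (n - 1) (by omega)
        rw [Nat.sub_add_cancel h0] at this
        exact this hlt
    have hNn : N ≤ n := by
      by_contra hlt
      push Not at hlt
      have := ha.monotone (show n + 1 ≤ N by omega)
      omega
    refine ⟨n, hNn, ?_⟩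
    rw [hg n]
    simp only [mem_iUnion, Finset.mem_Ico]
    exact ⟨i, ⟨hlow, hspec⟩, hxi⟩

theorem exists_unloc {I : Type} (M : I → Set Om) (hM : ∀ i, lam (M i) = 0)
    (hU : lam (⋃ i, M i) ≠ 0) : ∃ F : I → ℕ → ℕ, ¬ Loc id (range F) := by
  classical
  obtain ⟨C, hC⟩ := alg_enum
  obtain ⟨δ, hδ, hδs⟩ := ENNReal.exists_pos_tsum_mul_lt_of_countable (ε := 1) one_ne_zero
    (ι := ℕ) (fun n => (n : ℝ≥0∞)) (fun n => ENNReal.natCast_ne_top n)
  have hpos : ∀ n, (0 : ℝ≥0∞) < (δ n : ℝ≥0∞) := fun n => by exact_mod_cast hδ n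
  choose F hF1 hF2 using fun i => code_cover hC (hM i) (fun n => (δ n : ℝ≥0∞)) hpos
  refine ⟨F, ?_⟩
  rintro ⟨S, hS, hcap⟩
  apply hU
  let V : ℕ → Set Om := fun n => ⋃ k ∈ (S n).filter (fun k => lam (C k) ≤ (δ n : ℝ≥0∞)), C k
  have hV : ∀ n, lam (V n) ≤ (n : ℝ≥0∞) * (δ n : ℝ≥0∞) := by
    intro n
    refine (measure_biUnion_finset_le _ _).trans ?_
    calc ∑ k ∈ (S n).filter (fun k => lam (C k) ≤ (δ n : ℝ≥0∞)), lam (C k)
        ≤ ∑ k ∈ (S n).filter (fun k => lam (C k) ≤ (δ n : ℝ≥0∞)), (δ n : ℝ≥0∞) :=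
          Finset.sum_le_sum fun k hk => (Finset.mem_filter.1 hk).2
      _ = (((S n).filter (fun k => lam (C k) ≤ (δ n : ℝ≥0∞))).card : ℝ≥0∞) * (δ n : ℝ≥0∞) := by
          rw [Finset.sum_const, nsmul_eq_mul]
      _ ≤ (n : ℝ≥0∞) * (δ n : ℝ≥0∞) := by
          gcongr
          exact (Finset.card_filter_le _ _).trans (hS n)
  have hsumV : ∑' n, lam (V n) ≠ ∞ :=
    ne_top_of_le_ne_top (ne_top_of_lt hδs) (ENNReal.tsum_le_tsum hV)
  have hz : lam {x | ∃ᶠ n in atTop, x ∈ V n} = 0 :=
    measure_setOf_frequently_eq_zero hsumV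
  refine measure_mono_null ?_ hz
  intro x hx
  obtain ⟨i, hxi⟩ := mem_iUnion.1 hx
  show ∃ᶠ n in atTop, x ∈ V n
  have h1 := hF2 i x hxi
  have h2 := hcap (F i) (mem_range_self i)
  refine (h1.and_eventually h2).mono ?_
  rintro n ⟨hn1, hn2⟩
  simp only [V, mem_iUnion, Finset.mem_filter]
  exact ⟨F i n, ⟨hn2, hF1 i n⟩, hn1⟩

end Pool.Agent.Helper348.OM
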